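import Mathlib

set_option autoImplicit false

namespace Pool.Agent.Results.MP_28c1b3_co.Disproof

open Finset

/-- A family of subsets of an `n`-element set is `t`-avoiding if no two distinct members meet in
exactly `t` elements. -/
def TAvoiding {n : ℕ} (t : ℕ) (F : Finset (Finset (Fin n))) : Prop :=
  ∀ A ∈ F, ∀ B ∈ F, A ≠ B → (A ∩ B).card ≠ t

/-- `d F` is the number of unordered pairs of distinct, disjoint members of `F`. -/
def d {n : ℕ} (F : Finset (Finset (Fin n))) : ℕ :=
  ((F.powersetCard 2).filter (fun P => ∀ A ∈ P, ∀ B ∈ P, A ≠ B → A ∩ B = ∅)).card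

/-- The family `F(n, t)`: if `n + t` is odd, all `A` with `|A| ≥ (n + t + 1) / 2`; if `n + t` is
even, all `A` with `|A \ {first element}| ≥ (n + t) / 2`. (The ground set is `{0, …, n - 1}` and the
first element is `0`.) -/
def Fam (n t : ℕ) : Finset (Finset (Fin n)) :=
  univ.filter (fun A =>
    if Odd (n + t) then (n + t + 1) / 2 ≤ A.card
    else (n + t) / 2 ≤ (A.filter (fun x => x.val ≠ 0)).card)

/-- The family `F*(n, t)`: `F(n, t)` together with all sets with at most `t - 1` elements. -/
def FStar (n t : ℕ) : Finset (Finset (Fin n)) :=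
  Fam n t ∪ univ.filter (fun A => A.card ≤ t - 1)

/-- Upper half of the power set of `{1, …, 2k}` inside `Fin (2k+1)`. -/
def up (k : ℕ) : Finset (Finset (Fin (2 * k + 1))) :=
  univ.filter (fun A => 0 ∉ A ∧ k + 1 ≤ A.card)

/-- The better family. -/
def better (k : ℕ) : Finset (Finset (Fin (2 * k + 1))) :=
  insert ∅ (insert {0} (up k))

theorem mem_up {k : ℕ} {A : Finset (Fin (2 * k + 1))} : A ∈ up k ↔ 0 ∉ A ∧ k + 1 ≤ A.card := by
  simp [up]

theorem filter_ne_zero {k : ℕ} (A : Finset (Fin (2 * k + 1))) :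
    A.filter (fun x => x.val ≠ 0) = A.erase 0 := by
  ext x
  simp only [mem_filter, mem_erase, ne_eq]
  constructor
  · rintro ⟨h1, h2⟩
    refine ⟨?_, h1⟩
    rintro rfl
    exact h2 rfl
  · rintro ⟨h1, h2⟩
    refine ⟨h2, fun h => h1 (Fin.ext h)⟩

theorem mem_fam {k : ℕ} {A : Finset (Fin (2 * k + 1))} :
    A ∈ Fam (2 * k + 1) 1 ↔ k + 1 ≤ (A.erase 0).card := by
  have h : ¬ Odd (2 * k + 1 + 1) := by
    rw [Nat.not_odd_iff_even]
    exact ⟨k + 1, by ring⟩
  simp only [Fam, h, if_false, mem_filter, mem_univ, true_and, filter_ne_zero]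
  have : (2 * k + 1 + 1) / 2 = k + 1 := by omega
  rw [this]

theorem card_add_le {k : ℕ} {A B : Finset (Fin (2 * k + 1))} (hA : 0 ∉ A) (hB : 0 ∉ B) :
    A.card + B.card ≤ 2 * k + (A ∩ B).card := by
  have h1 := card_union_add_card_inter A B
  have h2 : (A ∪ B).card ≤ 2 * k := by
    have : A ∪ B ⊆ univ.erase 0 := by
      intro x hx
      rw [mem_erase]
      refine ⟨?_, mem_univ _⟩
      rintro rfl
      rcases mem_union.1 hx with h | h
      · exact hA h
      · exact hB h
    calc (A ∪ B).card ≤ (univ.erase (0 : Fin (2 * k + 1))).card := card_le_card this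
      _ = 2 * k := by rw [card_erase_of_mem (mem_univ _), card_univ, Fintype.card_fin]; rfl
  omega

theorem avoiding_better (k : ℕ) : TAvoiding 1 (better k) := by
  intro A hA B hB hAB
  simp only [better, mem_insert, mem_up] at hA hB
  rcases hA with rfl | rfl | hA
  · simp
  · rcases hB with rfl | rfl | hB
    · simp
    · exact absurd rfl hAB
    · rw [singleton_inter_of_notMem hB.1]
      simp
  · rcases hB with rfl | rfl | hB
    · simp
    · rw [inter_singleton_of_notMem hA.1]
      simp
    · have := card_add_le hA.1 hB.1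
      omega

theorem d_star_le (k : ℕ) : d (FStar (2 * k + 1) 1) ≤ (up k).card + (up k).card := by
  have h1 : (FStar (2 * k + 1) 1) = insert ∅ (Fam (2 * k + 1) 1) := by
    ext A
    simp [FStar, or_comm]
  have h2 : ((FStar (2 * k + 1) 1).powersetCard 2).filter
      (fun P => ∀ A ∈ P, ∀ B ∈ P, A ≠ B → A ∩ B = ∅) ⊆
      (Fam (2 * k + 1) 1).image (fun A => {∅, A}) := by
    intro P hP
    rw [mem_filter, mem_powersetCard] at hP
    obtain ⟨⟨hP1, hP2⟩, hP3⟩ := hP
    obtain ⟨A, B, hAB, rfl⟩ := card_eq_two.1 hP2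
    have hd := hP3 A (by simp) B (by simp) hAB
    have hA : A ∈ FStar (2 * k + 1) 1 := hP1 (by simp)
    have hB : B ∈ FStar (2 * k + 1) 1 := hP1 (by simp)
    rw [h1, mem_insert] at hA hB
    rw [mem_image]
    rcases hA with rfl | hA
    · rcases hB with rfl | hB
      · exact absurd rfl hAB
      · exact ⟨B, hB, rfl⟩
    · rcases hB with rfl | hB
      · exact ⟨A, hA, pair_comm _ _⟩
      · exfalso
        rw [mem_fam] at hA hB
        have h3 := card_add_le (notMem_erase 0 A) (notMem_erase 0 B)
        have h4 : (A.erase 0 ∩ B.erase 0).card = 0 := by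
          rw [card_eq_zero, ← subset_empty, ← hd]
          exact inter_subset_inter (erase_subset _ _) (erase_subset _ _)
        omega
  have h3 : Fam (2 * k + 1) 1 ⊆ up k ∪ (up k).image (insert 0) := by
    intro A hA
    rw [mem_fam] at hA
    by_cases h0 : 0 ∈ A
    · rw [mem_union, mem_image]
      right
      refine ⟨A.erase 0, ?_, insert_erase h0⟩
      rw [mem_up]
      exact ⟨notMem_erase _ _, hA⟩
    · rw [mem_union]
      left
      rw [mem_up]
      rw [erase_eq_of_notMem h0] at hA
      exact ⟨h0, hA⟩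
  calc d (FStar (2 * k + 1) 1)
      ≤ ((Fam (2 * k + 1) 1).image (fun A => ({∅, A} : Finset (Finset (Fin (2 * k + 1)))))).card :=
        card_le_card h2
    _ ≤ (Fam (2 * k + 1) 1).card := card_image_le
    _ ≤ (up k ∪ (up k).image (insert 0)).card := card_le_card h3
    _ ≤ (up k).card + ((up k).image (insert 0)).card := card_union_le _ _
    _ ≤ (up k).card + (up k).card := Nat.add_le_add_left card_image_le _

theorem lt_d_better (k : ℕ) : (up k).card + (up k).card < d (better k) := by
  classical
  have hne : (∅ : Finset (Fin (2 * k + 1))) ≠ {0} := (singleton_ne_empty 0).symm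
  have hup1 : ∀ A ∈ up k, A ≠ ∅ := by
    rintro A hA rfl
    rw [mem_up] at hA
    simp at hA
  have hup2 : ∀ A ∈ up k, A ≠ {0} := by
    rintro A hA rfl
    rw [mem_up] at hA
    simp at hA
  let f1 : Finset (Fin (2 * k + 1)) → Finset (Finset (Fin (2 * k + 1))) := fun A => {∅, A}
  let f2 : Finset (Fin (2 * k + 1)) → Finset (Finset (Fin (2 * k + 1))) := fun A => {{0}, A}
  have hi1 : Set.InjOn f1 (up k) := by
    intro A hA B hB h
    have h1 : A ∈ f1 B := by
      rw [← h]
      simp [f1]
    simp only [f1, mem_insert, mem_singleton] at h1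
    rcases h1 with h1 | h1
    · exact absurd h1 (hup1 A hA)
    · exact h1
  have hi2 : Set.InjOn f2 (up k) := by
    intro A hA B hB h
    have h1 : A ∈ f2 B := by
      rw [← h]
      simp [f2]
    simp only [f2, mem_insert, mem_singleton] at h1
    rcases h1 with h1 | h1
    · exact absurd h1 (hup2 A hA)
    · exact h1
  have hd1 : Disjoint ((up k).image f1) ((up k).image f2) := by
    rw [Finset.disjoint_left]
    intro P hP hP'
    obtain ⟨A, hA, rfl⟩ := mem_image.1 hP
    obtain ⟨B, hB, hB'⟩ := mem_image.1 hP'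
    have h1 : (∅ : Finset (Fin (2 * k + 1))) ∈ f2 B := by
      rw [hB']
      simp [f1]
    simp only [f2, mem_insert, mem_singleton] at h1
    rcases h1 with h1 | h1
    · exact hne h1
    · exact hup1 B hB h1.symm
  have hd2 : ({∅, {0}} : Finset (Finset (Fin (2 * k + 1)))) ∉
      (up k).image f1 ∪ (up k).image f2 := by
    intro h
    rcases mem_union.1 h with h | h
    · obtain ⟨A, hA, hA'⟩ := mem_image.1 h
      have h1 : A ∈ ({∅, {0}} : Finset (Finset (Fin (2 * k + 1)))) := by
        rw [← hA']
        simp [f1]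
      simp only [mem_insert, mem_singleton] at h1
      rcases h1 with h1 | h1
      · exact hup1 A hA h1
      · exact hup2 A hA h1
    · obtain ⟨A, hA, hA'⟩ := mem_image.1 h
      have h1 : A ∈ ({∅, {0}} : Finset (Finset (Fin (2 * k + 1)))) := by
        rw [← hA']
        simp [f2]
      simp only [mem_insert, mem_singleton] at h1
      rcases h1 with h1 | h1
      · exact hup1 A hA h1
      · exact hup2 A hA h1
  have hsub : insert ({∅, {0}} : Finset (Finset (Fin (2 * k + 1))))
      ((up k).image f1 ∪ (up k).image f2) ⊆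
      ((better k).powersetCard 2).filter (fun P => ∀ A ∈ P, ∀ B ∈ P, A ≠ B → A ∩ B = ∅) := by
    have key : ∀ A B : Finset (Fin (2 * k + 1)), A ∈ better k → B ∈ better k → A ≠ B →
        A ∩ B = ∅ → ({A, B} : Finset (Finset (Fin (2 * k + 1)))) ∈
        ((better k).powersetCard 2).filter
          (fun P => ∀ A ∈ P, ∀ B ∈ P, A ≠ B → A ∩ B = ∅) := by
      intro A B hA hB hAB hd
      rw [mem_filter, mem_powersetCard]
      refine ⟨⟨?_, card_pair hAB⟩, ?_⟩
      · intro X hX
        simp only [mem_insert, mem_singleton] at hX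
        rcases hX with rfl | rfl
        · exact hA
        · exact hB
      · intro X hX Y hY hXY
        simp only [mem_insert, mem_singleton] at hX hY
        rcases hX with rfl | rfl <;> rcases hY with rfl | rfl
        · exact absurd rfl hXY
        · exact hd
        · rw [inter_comm]; exact hd
        · exact absurd rfl hXY
    intro P hP
    rcases mem_insert.1 hP with rfl | hP
    · exact key _ _ (by simp [better]) (by simp [better]) hne (by simp)
    · rcases mem_union.1 hP with hP | hP
      · obtain ⟨A, hA, rfl⟩ := mem_image.1 hP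
        exact key _ _ (by simp [better]) (by simp [better, hA]) (hup1 A hA).symm (by simp)
      · obtain ⟨A, hA, rfl⟩ := mem_image.1 hP
        refine key _ _ (by simp [better]) (by simp [better, hA]) (hup2 A hA).symm ?_
        exact singleton_inter_of_notMem (mem_up.1 hA).1
  have hc := card_le_card hsub
  rw [card_insert_of_notMem hd2, card_union_of_disjoint hd1, card_image_of_injOn hi1,
    card_image_of_injOn hi2] at hc
  exact hc

/-- The conjecture is false: the negated form holds with `t = 1`. In fact for **every** odd `n`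
there is a `1`-avoiding family with more disjoint pairs than `F*(n, 1)`. -/
theorem result :
    (¬ ∀ t : ℕ, 1 ≤ t → ∃ n₀ : ℕ, ∀ n : ℕ, n₀ ≤ n → ∀ F : Finset (Finset (Fin n)),
      TAvoiding t F → d F ≤ d (FStar n t)) ∧
    ∀ n : ℕ, Odd n → ∃ F : Finset (Finset (Fin n)), TAvoiding 1 F ∧ d (FStar n 1) < d F := by
  have main : ∀ n : ℕ, Odd n → ∃ F : Finset (Finset (Fin n)),
      TAvoiding 1 F ∧ d (FStar n 1) < d F := by
    rintro n ⟨k, rfl⟩
    exact ⟨better k, avoiding_better k, (d_star_le k).trans_lt (lt_d_better k)⟩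
  refine ⟨?_, main⟩
  intro h
  obtain ⟨n₀, h0⟩ := h 1 le_rfl
  obtain ⟨F, hF, hlt⟩ := main (2 * n₀ + 1) ⟨n₀, rfl⟩
  exact absurd (h0 (2 * n₀ + 1) (by omega) F hF) (not_le.2 hlt)

end Pool.Agent.Results.MP_28c1b3_co.Disproof
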